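import Pool.Agent.H51.MF.Stmts
import Pool.Agent.H51.T2.Cover

/-! # Module COORD: coordinates exist -/

set_option linter.style.haveILetI false
set_option linter.unusedSectionVars false
set_option autoImplicit false

namespace Pool.Agent.H51.MF

open Module Pool.Agent.H51.T2

universe u v

variable {K : Type v} [Field K] {A : Type u} [Ring A] [Algebra K A]

/-- A finitely generated module as an object. -/
noncomputable def COORD_fm (K : Type v) [Field K] {A : Type u} [Ring A] [Algebra K A]
    [FiniteDimensional K A] (M : Type u) [AddCommGroup M] [Module A M] [Module.Finite A M] :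
    FM K A :=
  letI : Module K M := Module.compHom M (algebraMap K A)
  haveI := tower_compHom (A := A) K M
  haveI : Module.Finite K M := Module.Finite.trans A M
  { C := M }

theorem COORD_hd_left {P P' : FM K A} (e : P ≃ₗ[A] P') (X : FM K A) : hd P X = hd P' X := by
  let E : (P →ₗ[A] X) ≃ₗ[K] (P' →ₗ[A] X) :=
    { toFun := fun k => k ∘ₗ e.symm.toLinearMap
      invFun := fun k => k ∘ₗ e.toLinearMap
      map_add' := fun k k' => by ext x; simp
      map_smul' := fun c k => by ext x; simp
      left_inv := fun k => by ext x; simp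
      right_inv := fun k => by ext x; simp }
  exact LinearEquiv.finrank_eq E

theorem COORD_hd_prod (P Q X : FM K A) : hd (P.prod Q) X = hd P X + hd Q X := by
  have i1 : FiniteDimensional K (P →ₗ[A] X) := finite_hom
  have i2 : FiniteDimensional K (Q →ₗ[A] X) := finite_hom
  unfold hd
  rw [← Module.finrank_prod]
  exact (LinearEquiv.finrank_eq (LinearMap.coprodEquiv (R := A) (M := P) (M₂ := Q) (M₃ := X) K)).symm

theorem COORD_hd_zero (P X : FM K A) [Subsingleton P] : hd P X = 0 := by
  have : Subsingleton (P →ₗ[A] X) := ⟨fun f g => by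
    ext x
    rw [Subsingleton.elim x 0, map_zero, map_zero]⟩
  exact Module.finrank_zero_of_subsingleton

/-- Projective covers of simple modules. -/
def COORD_Cov (E : FM K A) : Prop :=
  Module.Projective A E ∧ ∃ (S : FM K A) (π : E →ₗ[A] S), IsSimpleModule A S ∧
    Function.Surjective π ∧ ∀ φ : E →ₗ[A] E, π ∘ₗ φ = π → Function.Bijective φ

theorem COORD_fin (X : FM K A) : Module.Finite A X := Module.Finite.of_restrictScalars_finite K A X

theorem COORD_dec [FiniteDimensional K A] (n : ℕ) : ∀ (P : FM K A) [Module.Projective A P],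
    finrank K P < n → ∃ l : List (FM K A), (∀ E ∈ l, COORD_Cov E) ∧
      ∀ X : FM K A, hd P X = (l.map (fun E => hd E X)).sum := by
  have : IsNoetherianRing A := noeth_of_fd K
  induction n with
  | zero => intro P _ h; exact absurd h (Nat.not_lt_zero _)
  | succ n ih =>
    intro P _ hP
    have hPf : Module.Finite A P := COORD_fin P
    rcases subsingleton_or_nontrivial P with hs | hs
    · exact ⟨[], by simp, fun X => by rw [COORD_hd_zero]; rfl⟩
    obtain ⟨N, hN⟩ := IsCoatomic.exists_coatom (α := Submodule A P)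
    have hsim : IsSimpleModule A (P ⧸ N) := isSimpleModule_iff_isCoatom.2 hN
    obtain ⟨E, i1, i2, i3, i4, π, hπ, hmin⟩ := exists_cover (A := A) K (P.C ⧸ N)
    obtain ⟨Q, k1, k2, k3, k4, ⟨e⟩⟩ := split_cover K hπ hmin (Q := P.C) (ρ := N.mkQ)
      (Submodule.mkQ_surjective N)
    have hnt : Nontrivial E := by
      have := IsSimpleModule.nontrivial A (P.C ⧸ N)
      exact hπ.nontrivial
    have h1 : kdim (A := A) K P = kdim (A := A) K E + kdim (A := A) K Q := by
      rw [kdim_congr K e, kdim_prod]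
    rw [kdim_eq] at h1
    have h2 := kdim_pos (A := A) K E
    have hQ : Module.Projective A (COORD_fm K Q : FM K A) := k4
    have h3 : finrank K (COORD_fm K Q : FM K A) = kdim (A := A) K Q := by
      rw [← kdim_eq (A := A) K (COORD_fm K Q : FM K A)]
      rfl
    obtain ⟨l, hl1, hl2⟩ := ih (COORD_fm K Q) (by omega)
    refine ⟨COORD_fm K E :: l, ?_, ?_⟩
    · intro F hF
      rcases List.mem_cons.1 hF with rfl | hF
      · exact ⟨i4, P.quot N, π, hsim, hπ, hmin⟩
      · exact hl1 F hF
    · intro X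
      rw [List.map_cons, List.sum_cons, ← hl2, ← COORD_hd_prod]
      exact COORD_hd_left (P := P) (P' := (COORD_fm K E).prod (COORD_fm K Q)) e X

theorem COORD_match [FiniteDimensional K A] {E E' : FM K A} (h : COORD_Cov E)
    (h' : COORD_Cov E') (S : FM K A) (π : E →ₗ[A] S) (hS : IsSimpleModule A S)
    (hπ : Function.Surjective π) (hmin : ∀ φ : E →ₗ[A] E, π ∘ₗ φ = π → Function.Bijective φ)
    (ρ : E' →ₗ[A] S) (hρ0 : ρ ≠ 0) (X : FM K A) : hd E X = hd E' X := by
  have : IsNoetherianRing A := noeth_of_fd K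
  obtain ⟨hp, -⟩ := h
  obtain ⟨hp', S', π', hS', hπ', hmin'⟩ := h'
  have hf : Module.Finite A E := COORD_fin E
  have hf' : Module.Finite A E' := COORD_fin E'
  have hρ : Function.Surjective ρ := (LinearMap.surjective_or_eq_zero ρ).resolve_right hρ0
  have hker : LinearMap.ker ρ ≤ LinearMap.ker π' := by
    intro x hx
    by_contra hx'
    have := top_of_minimal hmin' (LinearMap.ker ρ) ⟨x, hx, hx'⟩
    exact hρ0 (LinearMap.ker_eq_top.1 this)
  obtain ⟨eS⟩ : Nonempty (S ≃ₗ[A] S') := by
    let τ : (E' ⧸ LinearMap.ker ρ) →ₗ[A] S' := (LinearMap.ker ρ).liftQ π' hker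
    have hsq : IsSimpleModule A (E' ⧸ LinearMap.ker ρ) :=
      IsSimpleModule.congr (LinearMap.quotKerEquivOfSurjective ρ hρ)
    have hτ : τ ≠ 0 := by
      intro h
      have := IsSimpleModule.nontrivial A S'
      obtain ⟨x, hx⟩ := exists_ne (0 : S')
      obtain ⟨y, rfl⟩ := hπ' x
      apply hx
      have := LinearMap.congr_fun h ((LinearMap.ker ρ).mkQ y)
      simpa [τ] using this
    have hb := LinearMap.bijective_of_ne_zero hτ
    exact ⟨(LinearMap.quotKerEquivOfSurjective ρ hρ).symm ≪≫ₗ LinearEquiv.ofBijective τ hb⟩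
  obtain ⟨Q₁, k1, k2, k3, k4, ⟨e⟩⟩ := split_cover K hπ hmin (Q := E'.C) (ρ := ρ) hρ
  obtain ⟨Q₂, j1, j2, j3, j4, ⟨e'⟩⟩ := split_cover K hπ' hmin' (Q := E.C)
    (ρ := eS.toLinearMap ∘ₗ π) (eS.surjective.comp hπ)
  have h1 : kdim (A := A) K E' = kdim (A := A) K E + kdim (A := A) K Q₁ := by
    rw [kdim_congr K e, kdim_prod]
  have h2 : kdim (A := A) K E = kdim (A := A) K E' + kdim (A := A) K Q₂ := by
    rw [kdim_congr K e', kdim_prod]
  have hQ : Subsingleton Q₁ := by
    rcases subsingleton_or_nontrivial Q₁ with hs | hs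
    · exact hs
    · have := kdim_pos (A := A) K Q₁
      omega
  have hQ' : Subsingleton (COORD_fm K Q₁ : FM K A) := hQ
  have h3 := COORD_hd_left (P := E') (P' := E.prod (COORD_fm K Q₁)) e X
  rw [COORD_hd_prod, COORD_hd_zero (COORD_fm K Q₁) X] at h3
  omega

theorem COORD_list {n : ℕ} (F : Fin n → FM K A) (l : List (FM K A))
    (h : ∀ E ∈ l, ∃ i, ∀ X : FM K A, hd E X = hd (F i) X) :
    ∃ a : Fin n → ℕ, ∀ X : FM K A, (l.map (fun E => hd E X)).sum = ∑ i, a i * hd (F i) X := by
  induction l with
  | nil => exact ⟨0, fun X => by simp⟩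
  | cons E l ih =>
    obtain ⟨a, ha⟩ := ih fun E' hE' => h E' (List.mem_cons_of_mem _ hE')
    obtain ⟨i, hi⟩ := h E List.mem_cons_self
    refine ⟨a + Pi.single i 1, fun X => ?_⟩
    rw [List.map_cons, List.sum_cons, ha, hi]
    simp only [Pi.add_apply, add_mul, Finset.sum_add_distrib]
    rw [add_comm]
    congr 1
    rw [Finset.sum_eq_single i]
    · simp
    · intro j _ hj
      simp [Pi.single_eq_of_ne hj]
    · intro hi'
      exact absurd (Finset.mem_univ i) hi'

theorem s_COORD (K : Type v) [Field K] (A : Type u) [Ring A] [Algebra K A] : S_COORD K A := by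
  intro hA
  let RA : FM K A := { C := A }
  have hproj : Module.Projective A RA := (inferInstance : Module.Projective A A)
  obtain ⟨l, hl1, hl2⟩ := COORD_dec (finrank K RA + 1) RA (Nat.lt_succ_self _)
  refine ⟨⟨l.length, fun i => l.get i, fun i => (hl1 _ (List.get_mem l i)).1, fun P _ => ?_⟩⟩
  obtain ⟨m, hm1, hm2⟩ := COORD_dec (finrank K P + 1) P (Nat.lt_succ_self _)
  obtain ⟨a, ha⟩ := COORD_list (fun i : Fin l.length => l.get i) m (fun E hE => by
    have hE' := hm1 E hE
    obtain ⟨-, S, π, hS, hπ, hmin⟩ := hE'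
    have h1 : 0 < hd RA S := by
      have i1 : FiniteDimensional K (RA →ₗ[A] S) := finite_hom
      have i2 : Nontrivial (RA →ₗ[A] S) := by
        have := IsSimpleModule.nontrivial A S
        obtain ⟨s, hs⟩ := exists_ne (0 : S)
        refine ⟨⟨LinearMap.toSpanSingleton A S s, 0, fun h => hs ?_⟩⟩
        have := LinearMap.congr_fun h (1 : A)
        simpa using this
      exact Module.finrank_pos
    rw [hl2] at h1
    obtain ⟨x, hx, hx0⟩ : ∃ F ∈ l, hd F S ≠ 0 := by
      by_contra hne
      push Not at hne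
      have : (l.map (fun E => hd E S)).sum = 0 := by
        apply List.sum_eq_zero
        intro x hx
        obtain ⟨F, hF, rfl⟩ := List.mem_map.1 hx
        exact hne F hF
      omega
    obtain ⟨i, hi⟩ := List.mem_iff_get.1 hx
    refine ⟨i, fun X => ?_⟩
    rw [hi]
    have hρ : ∃ ρ : x →ₗ[A] S, ρ ≠ 0 := by
      by_contra hne
      push Not at hne
      apply hx0
      have : Subsingleton (x →ₗ[A] S) := ⟨fun f g => by rw [hne f, hne g]⟩
      exact Module.finrank_zero_of_subsingleton
    obtain ⟨ρ, hρ⟩ := hρ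
    exact COORD_match (hm1 E hE) (hl1 x hx) S π hS hπ hmin ρ hρ X)
  exact ⟨a, fun X => by rw [hm2, ha]⟩

end Pool.Agent.H51.MF
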