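import Pool.Agent.H51.MF.Stmts
import Pool.Agent.H4.MF.COORD

/-! # Module CLS: classes and coordinates -/

set_option linter.style.haveILetI false
set_option linter.unusedSectionVars false
set_option autoImplicit false

namespace Pool.Agent.H51.MF

open Module Pool.Agent.H51.T2

universe u v

variable {K : Type v} [Field K] {A : Type u} [Ring A] [Algebra K A]

theorem CLS_zero (X : FM K A) : hd (FM.zero : FM K A) X = 0 := by
  have : Subsingleton (FM.zero : FM K A) := (inferInstance : Subsingleton PUnit.{u + 1})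
  exact COORD_hd_zero _ X

theorem CLS_pow (E : FM K A) (hE : Module.Projective A E) (k : ℕ) :
    ∃ P : FM K A, Module.Projective A P ∧ ∀ X : FM K A, hd P X = k * hd E X := by
  induction k with
  | zero => exact ⟨FM.zero, projective_punit, fun X => by rw [CLS_zero, Nat.zero_mul]⟩
  | succ k ih =>
    obtain ⟨P, hP, h⟩ := ih
    refine ⟨E.prod P, (inferInstance : Module.Projective A (E × P)), fun X => ?_⟩
    rw [COORD_hd_prod, h]
    ring

theorem CLS_sum {n : ℕ} (E : Fin n → FM K A) (hE : ∀ i, Module.Projective A (E i))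
    (a : Fin n → ℕ) (s : Finset (Fin n)) : ∃ P : FM K A, Module.Projective A P ∧
      ∀ X : FM K A, hd P X = ∑ i ∈ s, a i * hd (E i) X := by
  induction s using Finset.induction_on with
  | empty => exact ⟨FM.zero, projective_punit, fun X => by rw [CLS_zero, Finset.sum_empty]⟩
  | insert i s hi ih =>
    obtain ⟨P, hP, h⟩ := ih
    obtain ⟨P', hP', h'⟩ := CLS_pow (E i) (hE i) (a i)
    refine ⟨P'.prod P, (inferInstance : Module.Projective A (P' × P)), fun X => ?_⟩
    rw [COORD_hd_prod, h, h', Finset.sum_insert hi]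

theorem s_CLS (K : Type v) [Field K] (A : Type u) [Ring A] [Algebra K A] : S_CLS K A := by
  intro c
  constructor
  · intro g
    obtain ⟨a, ha⟩ := c.full g.Q
    obtain ⟨b, hb⟩ := c.full g.P
    refine ⟨fun i => (a i : ℤ) - b i, fun X => ?_⟩
    unfold TC.cl Coo.v dotProduct
    rw [ha, hb]
    push_cast
    rw [← Finset.sum_sub_distrib]
    exact Finset.sum_congr rfl fun i _ => by ring
  · intro θ
    obtain ⟨Q, hQ, h⟩ := CLS_sum c.E c.proj (fun i => (θ i).toNat) Finset.univ
    obtain ⟨P, hP, h'⟩ := CLS_sum c.E c.proj (fun i => (-θ i).toNat) Finset.univ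
    refine ⟨{ P := P, Q := Q, f := 0 }, fun X => ?_⟩
    unfold TC.cl Coo.v dotProduct
    change (hd Q X : ℤ) - (hd P X : ℤ) = _
    rw [h, h']
    push_cast
    rw [← Finset.sum_sub_distrib]
    refine Finset.sum_congr rfl fun i _ => ?_
    rw [← sub_mul]
    congr 1
    omega

end Pool.Agent.H51.MF
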